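import Pool.Agent.V5helper86.AP.CnvO

/-!
# The standard conjecture of Hodge type for all powers of varieties with a maximal degeneration, or
# with ordinary K3 slopes

Let `V l` be Weil cohomology theories on a class of smooth proper varieties over a field `k` of any
characteristic, such that for almost all primes `p` one of the coefficient fields is the field of
`p`-adic numbers, and let `l₀` be an index for which the coefficient field is algebraically closed
(the example: étale cohomology with coefficients in the fields of `p`-adic numbers for all `p`
different from the characteristic, and in an algebraic closure of one of them). As in the starting
result `MaximalDegenerations` let `G` be a class of varieties, closed under products, with an action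
of a group `Γ` with the formal properties of a Galois action on the cohomology `V l₀` (the example:
varieties over a function field), let `Z` and `P_i` be polarized varieties in `G` which satisfy the
standard conjectures of Lefschetz and of Hodge type, let the dimension of `P_i` be even, and let the
transcendental cohomology `T_i` of `P_i` be in the middle degree, irreducible under all subgroups of
finite index, and of rank `3` or at least `5`. For every `i` one of the following holds.

* An element of `Γ` acts on `T_i` like an element of the inertia group at a place of maximal
  degeneration (type III reduction) of a K3 surface.
* An element of `Γ` (a Frobenius element) acts on `T_i` with the slopes of an ordinary K3 surface.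

Different `T_i` are not isomorphic up to a twist, for two indices with rank `8` the element and the
valuation are the same, and the cohomology of `Z` is generated by representations which are small
with respect to the `P_i`.

The starting result treats the products of `Z` with powers of the `P_i` with less than `rank T_i`
factors `P_i`. This bound excludes exactly the powers on which the orthogonal group of `T_i` and its
identity component have different invariants: on `P_i ^ (rank T_i)` there is the determinant class
of `T_i`, which is invariant under a subgroup of finite index of `Γ`, and it is not known if it is
algebraic.

**Theorem.** The standard conjecture of Hodge type and the conjecture D hold for the products of `Z`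
with powers of different `P_i`, where for those `i` for which there are at least `rank T_i` factors
`P_i` the following is assumed: the Tate conjecture holds for `Z` (for example `Z` is a point or a
product of elliptic curves); in all the theories `V l` the conjecture D holds for `P_i` and the
transcendental cohomology is in the middle degree; and the discriminants of the form
`(-1) ^ (dim P_i / 2) tr (x y)` on it are up to squares one and the same positive rational number, or
there are isometries of the transcendental cohomologies in all theories `V l` with the same rational
characteristic polynomial, without real roots.

The condition on the discriminants holds for K3 surfaces (the number is the absolute value of the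
discriminant of the Picard group). So the theorem applies, for example, to all powers, and to all
products of powers, of K3 surfaces of transcendental rank `3` or at least `5` over function fields
which have a place of type III reduction, or are ordinary at a place, if the transcendental
cohomology is absolutely irreducible (over all finite extensions).

The idea of the proof: as in the starting result all algebraic classes on the product are invariant
under `so(T_i)`. The parts which are not invariant under `O(T_i)` become so after multiplication
with the determinant class. This reduces the positivity for the products with powers of `P_i` to the
positivity for the classes `z` of the remaining factors such that `z` or `z ⊗ ω ⊗ ω' ⊗ ⋯` is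
algebraic, where `ω`, `ω'`, … are determinant classes. Now `ω ⊗ ω` is a multiple of the determinant
of the matrix of the transcendental parts of the diagonals, hence algebraic. If `u` is an algebraic
class on the power of `P_i`, the number `tr (u ω) ^ 2` is therefore up to the discriminant a rational
number which does not depend on the theory `V l`, and it is a square in almost all fields of `p`-adic
numbers; hence it is not negative.
-/

universe u x

namespace Pool.Agent.Results.MP_ffcd14_ag.AllPowersMaximal

open Pool.Agent.H914 Pool.Agent.H281R3.HT Pool.Agent.V5helper86.AP.O

/-- **The standard conjecture of Hodge type and the conjecture D for products with arbitrary powers
of varieties with a maximal degeneration or with ordinary K3 slopes.** -/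
theorem result {k : Type u} [Field k] {𝒱 : VarClass k} {ops : CycleOps 𝒱} {Λ : Type x}
    (V : Λ → WeilCohomology.{u, 0} ops) (hV : AlmostAllPrimes V) (l₀ : Λ)
    {Γ : Type} [Group Γ] (χ : Γ → (V l₀).K)
    (G : ∀ X : 𝒱.Obj, (Γ → (V l₀).H X → (V l₀).H X) → Prop)
    {ι : Type} (l : ι → Loc (V l₀).K Γ) (P : ι → Polarized 𝒱)
    (ρ : ∀ i, Γ → (V l₀).H (P i).X → (V l₀).H (P i).X)
    (Z : Polarized 𝒱) (ζ : Γ → (V l₀).H Z.X → (V l₀).H Z.X)
    (h : Family (V l₀) χ G l P ρ Z ζ) (L : List (ι × ℕ))
    (hL : AllowedPowers V P (fun i => (l i).r) (TateFor (V l₀) χ Z.X ζ) L) :
    HodgeType (V l₀) (productOfPowers ops P Z L).X (productOfPowers ops P Z L).D ∧
      HomEqNum (V l₀) (productOfPowers ops P Z L).X :=
  h.hodge hV hL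

end Pool.Agent.Results.MP_ffcd14_ag.AllPowersMaximal
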