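import Pool.Agent.V5helper86.AP.Cnv

/-!
# The standard conjecture of Hodge type for all powers of varieties with a nodal reduction

Let `V l` be Weil cohomology theories on a class of smooth proper varieties over a field `k` of any
characteristic, such that for almost all primes `p` one of the coefficient fields is the field of
`p`-adic numbers (the example: étale cohomology for all primes different from the characteristic),
and let `l₀` be one of the indices. As in the starting result `NodalProducts` let `G` be a class of
varieties, closed under products, with an action of a group `Γ` with the formal properties of a
Galois action on the cohomology `V l₀`; let `X_i` and `Z` be polarized varieties in `G` which satisfy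
the standard conjectures of Lefschetz and of Hodge type; let the transcendental cohomology `T_i` of
`X_i` be in the middle degree and irreducible under all subgroups of finite index; and for every `i`
let there be an element `g_i` of `Γ` which acts on `T_i` by a Picard-Lefschetz formula and trivially
on the cohomology of `Z`, of the other `X_j`, and on the Tate twists (for example an element of the
inertia group of a place at which `X_i` has an ordinary double point and `Z` and the other `X_j` have
good reduction).

The starting result treats the products of `Z` with powers of the `X_i` with less than `rank T_i`
factors `X_i`, if `dim X_i` is even. This bound excludes exactly the powers on which the orthogonal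
group of `T_i` and its identity component have different invariants: on `X_i ^ (rank T_i)` there is
the determinant class of `T_i`, which is invariant under a subgroup of finite index of `Γ`. It is not
known if the multiples of this class, or of its products with classes of other varieties, which are
algebraic, are rational multiples of known classes.

**Theorem.** Let the Tate conjecture hold for `Z` (for example let `Z` be a point, or a product of
elliptic curves). Then the standard conjecture of Hodge type and the conjecture D hold for the
products of `Z` with **arbitrary powers** of different `X_i`, where for the even-dimensional `X_i`,
if there are at least `rank T_i` factors `X_i`, the following is assumed: `rank T_i > 2`; in all the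
theories `V l` the conjecture D holds for `X_i` and the transcendental cohomology is in the middle
degree; and the discriminants of the form `(-1) ^ (dim X_i / 2) tr (x y)` on it are up to squares one
and the same positive rational number; or there are isometries of the transcendental cohomologies
in all theories `V l` with the same rational characteristic polynomial, without real roots.

The condition on the discriminants holds for K3 surfaces (the number is the absolute value of the
discriminant of the Picard group) and for varieties which can be lifted to characteristic zero
together with their algebraic classes (there the sign is given by the Hodge-Riemann relations). The
condition on the isometries holds if `X_i` has a good reduction over a field with `q` elements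
such that Frobenius does not have one of the eigenvalues `q ^ (dim X_i / 2)`, `-q ^ (dim X_i / 2)` on
the specialization of the transcendental cohomology.

The idea of the proof: all algebraic classes on the product are invariant under `so(T_i)`. The parts
which are not invariant under `O(T_i)` become so after multiplication with the determinant class
`ω`. This reduces the positivity for the products with powers of `X_i` to the positivity for the
classes `z` of the remaining factors such that `z` or `z ⊗ ω ⊗ ω' ⊗ ⋯` is algebraic. Now `ω ⊗ ω` is a
multiple of the determinant of the matrix of the transcendental parts of the diagonals, hence
algebraic. If `u` is an algebraic class on the power of `X_i`, the number `tr (u ω) ^ 2` is therefore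
up to the discriminant a rational number which does not depend on the theory `V l`, and it is a
square in almost all fields of `p`-adic numbers; hence it is not negative.
-/

universe u v w x

namespace Pool.Agent.Results.MP_ffcd14_ag.AllPowersNodal

open Pool.Agent.H914 Pool.Agent.H281R3.HT Pool.Agent.V5helper86.AP.P

/-- **The standard conjecture of Hodge type and the conjecture D for products with arbitrary powers
of varieties with a nodal reduction.** -/
theorem result {k : Type u} [Field k] {𝒱 : VarClass k} {ops : CycleOps 𝒱} {Λ : Type x}
    (V : Λ → WeilCohomology.{u, v} ops) (hV : AlmostAllPrimes V) (l₀ : Λ)
    {Γ : Type w} [Group Γ] (χ : Γ →* (V l₀).Kˣ) (G : ∀ X : 𝒱.Obj, (coh (V l₀) X).Act Γ → Prop)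
    {ι : Type} (P : ι → Polarized 𝒱) (ρ : ∀ i, (coh (V l₀) (P i).X).Act Γ)
    (Z : Polarized 𝒱) (ζ : (coh (V l₀) Z.X).Act Γ) (h : NodalSystem χ G P ρ Z ζ)
    (L : List (ι × ℕ)) (hL : AllowedPowers V l₀ P L) :
    HodgeType (V l₀) (productOfPowers ops P Z L).X (productOfPowers ops P Z L).D ∧
      HomEqNum (V l₀) (productOfPowers ops P Z L).X :=
  h.hodge hV hL

end Pool.Agent.Results.MP_ffcd14_ag.AllPowersNodal
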