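import Mathlib
import Pool.Agent.Q29.EP.RowsCT
import Pool.Agent.Y1.KN.All
import Pool.Agent.V5helper98.HH.Main

/-!
# The standard conjecture of Hodge type for the products of all unrelated varieties with abelian
varieties of almost all slope types of all CM fields, and of one half of all slope types of every CM
field of degree `2 r ^ k`

Let `K i` (`i` in a finite set) be CM fields of degree `2 g i` which are pairwise independent: for
`i ≠ k` and all complex embeddings `φ` of `K i` and `ψ` of `K k` some automorphism of `ℂ` is the
identity on `φ (K i)` and the complex conjugation on `ψ (K k)` (this is no condition if there is
only one field). We fix an isomorphism `ν` of the algebraic closure of `ℚ_p` with `ℂ`; it defines a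
`p`-adic valuation of `ℂ`, with the value one at `p`. Let `M i` be a function with integral values on
the complex embeddings of `K i`, invariant under complex conjugation (the weights). A CM type `Φ i`
of `K i` (a choice of one element out of each complex conjugate pair of embeddings), `M i` and a real
number `κ ≠ 0` prescribe the slopes `(a + κ M) / 2` (at the embeddings in `Φ i`) and `(a - κ M) / 2`
(outside of `Φ i`) of a Weil number for `p ^ a` in `K i` (`HasType`). If `p` splits completely in
`K i` then, by Honda and Tate, all rational slopes between `0` and `a` that are symmetric in this way
occur for abelian varieties over finite fields. The case `M = 1`, `κ = a` is the ordinary case.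

**The property of the slope types** (`Q`, `HodgeTimes`). Let `π i` be Weil numbers for `q = p ^ a`
that generate the fields `K i` and have the slope types `Φ i`, `M i`, and let `f i` be monic
polynomials whose complex roots are conjugates of `π i` (`IsPolyOf`), for instance the characteristic
polynomials of Frobenius of the abelian varieties in the isogeny classes of the `π i`. Let `A` be a
polarized abelian variety over an algebraic closure of a finite field which over the field with
`q ^ s` elements is isogenous to a product of powers of abelian varieties coming from the field with
`q` elements, with characteristic polynomials `f i` (`IsAbelianFrobenius`), and let `Z` be **any**
smooth projective variety such that the eigenvalues `ρ` of Frobenius on the cohomology of `Z` and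
their conjugates are unrelated to the fields `K i` (`UnrelatedTo`): a function `n` on the complex
embeddings of `K i` with `n (conj φ) = - n φ` which is invariant under all automorphisms of `ℂ` that
fix a power of `ρ` is zero. This is so if for each embedding `ψ` of `K i` some automorphism which
fixes a power of `ρ` is the complex conjugation on `ψ (K i)`: for instance, if a power of `ρ` lies in
a field linearly disjoint from the normal closures of the `K i`, or in a totally real field. It is
also so if the degree of `ρ` is less than twice the dimension of each nonzero space of functions `n`
stable under all automorphisms of `ℂ`. Then

* homological and numerical equivalence coincide on `A`, and **they coincide on `A × Z` if and only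
  if they coincide on `Z`**;
* if `Z` has a divisor that satisfies hard Lefschetz then **the standard conjecture of Hodge type for
  `A × Z` is equivalent to the standard conjecture of Hodge type for `Z`**, where `A × Z` carries the
  sum of the pull-backs of the divisors. It is assumed that `A` satisfies hard Lefschetz and the
  conjecture of Hodge type (with its polarization); this is known here, since on `A` all algebraic
  classes are combinations of products of divisor classes (`HalfOfAllSlopeTypes` in this folder).

Nothing else is assumed on `Z`: neither the Tate conjecture, nor the semisimplicity of Frobenius, nor
the coincidence of homological and numerical equivalence, nor the finiteness of the dimension of the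
space of algebraic classes, nor the standard conjecture of Lefschetz type. For instance the conjecture
of Hodge type is true for `A × Z` if `Z` is an unrelated surface, or an unrelated abelian fourfold
(Ancona). The cohomology is any Weil cohomology with algebraically closed coefficient field, for
instance `ℓ`-adic cohomology for every `ℓ`, or crystalline cohomology, with extended coefficients, on
any class `𝒱` of smooth proper varieties over any algebraically closed field `k`.

**The theorem.**

* (`AlmostAll`, `WeightEstimate`) For all pairwise independent CM fields `K i` and all weights whose
  values divide `n i ≠ 0` the property `Q` is true for all `2 ^ (∑ g i)` families of types but at most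
  `2 ^ (∑ g i) * ∑ C * n i ^ 2 * rate (K i) (g i) (q i)`, with an absolute constant `C`. Here `q i` is
  any prime factor of `g i` (or `q i = 1`), and `rate K g q` is `(1 + log (2 g)) ^ 16` times the
  smaller of the numbers `W (K) / √g` and `√g / q`, with `W (K) ≤ N ^ 2 * D ^ (1 / 4)`, `N` the number
  of the CM subfields of `K` (with `K`) and `D` the largest degree of a CM subfield of `K` that is
  normal over `ℚ` with a nonabelian Galois group (`D = 1` if there are none).

Let `E` be **any CM field of degree `2 g = 2 r ^ k`**, `r` a prime number, of degree at least `16` if
`r = 2`. Nothing is assumed about the Galois group of the normal closure of `E`, and nothing about the
subfields of `E`.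

* (`HalfOfAll`) For all weights `M` (odd if `r = 2`; if `r` is odd then `r` may divide some, but not
  all of them) the property `Q` is true for **at least one half of all `2 ^ g` types** of `E`.
* (`MostWithWeightsOne`) For the weights `M = 1` (for instance in the ordinary case) it is true for
  at least `(1 - 1 / r) 2 ^ g` of the types.
* (`OneOfTwo`) There is a set `B` of embeddings of `E`, stable under complex conjugation, such that
  for **every** type `Φ` it is true for `Φ` or for the symmetric difference of `Φ` and `B`.
* (`SixteenPercent`) There is a number `g₀` such that for every CM field that is **abelian over
  `ℚ`**, of any degree `2 g ≥ 2 g₀`, and all odd weights it is true for at least 16 percent of all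
  `2 ^ g` types; again nothing is assumed on the subfields.

All this is proved for finitely many pairwise independent fields; the proportions are then multiplied.

**What is new.** The products of abelian varieties with **arbitrary** varieties `Z`. The starting
results of this folder treat abelian varieties, or products of varieties with large monodromy or with
special slopes whose relations with the eigenvalues of `Z` are excluded by the slopes of `Z`
(`DifferentHeights`). The theorems on the types without relations (`Pool.Agent.Q29.DP`,
`Pool.Agent.Q29.EP`, applied there to the conjecture of Parshin in MP_de59b4_ag), the theory of the
relations with the eigenvalues of `Z` (`Pool.Agent.Y1.CT`, `Pool.Agent.Y1.SC`, applied there to the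
conjecture A in MP_0273e8_ag) and the Lefschetz theory on products (`Pool.Agent.TH132.A`, applied there
to families with large monodromy) are those of the starting files; the modules
`Pool.Agent.V5helper98.HH` combine them.

**The proof.** Suppose that the product of `ρ` and of some eigenvalues `φ (π i)` of `A`, no two of them
complex conjugate, is a power of `q`, up to a root of unity. For an automorphism `σ` of `ℂ` the
`p`-adic valuations of the images under `σ` give a linear relation between the signed weights
`± M i (σ φ)` whose right side is a function of the valuation of `σ ρ`. It does not change if `σ` is
multiplied by an automorphism `τ` which fixes a power of `ρ`. The difference of the two relations is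
homogeneous; if the types have no relations it is trivial, so that the differences of the exponents of
complex conjugate embeddings are invariant under `τ`, and so zero, as `ρ` is unrelated to the fields
`K i`. Hence all algebraic classes on `A × Z` are combinations of products `x × y` with algebraic
classes `x` on `A` and arbitrary classes `y` on `Z`, and homological and numerical equivalence
coincide on `A`; so one can take `y` algebraic. This gives the first statement. The Lefschetz
involution of `A` is algebraic; an orthogonal rational basis of the algebraic classes on `A` for the
form of the Lefschetz involution, positive by the conjecture of Hodge type for `A`, is used to expand a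
primitive algebraic class on `A × Z`. The coefficients belong to the closure of the space of the
algebraic classes on `Z` under the operators of the Lefschetz algebra, on which the sign is
determined by the conjecture of Hodge type for `Z`. The number of the types with relations is
estimated in the starting files, see `AllCMTypesTimes` in MP_0273e8_ag and `HalfOfAllTimes` in
MP_de59b4_ag.
-/

set_option autoImplicit false

namespace Pool.Agent.Results.MP_ffcd14_ag.AllSlopeTypesTimes

open Pool.Agent.Y1.KN Pool.Agent.Y1.CT Pool.Agent.Q29.EP Pool.Agent.V5helper98.HH

open Pool.Agent.Q29.DP (of_unrelated)

/-- The property of the slope types `Φ i` with the weights `M i`. -/
def Q : TypeProperty := fun _ _ ν _ _ K _ _ _ M Φ => ForAllTypes ν K M (HodgeTimes K) Φ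

/-- **The standard conjecture of Hodge type for `A × Z` is equivalent to the one for `Z`, for the
abelian varieties `A` of almost all slope types of all CM fields, and of one half of all slope types of
every CM field of degree `2 r ^ k`, and all unrelated varieties `Z`.** -/
theorem result : AlmostAll Q ∧ WeightEstimate ∧ HalfOfAll Q ∧ MostWithWeightsOne Q ∧ OneOfTwo Q ∧
    SixteenPercent Q := by
  have h : WithoutRelations Q := of_unrelated (P := fun _ K _ => HodgeTimes K)
    fun _ _ _ _ _ _ hQ hR => hodgeTimes hQ hR
  exact ⟨almostAll h, weight_estimate_holds, halfOfAll h, mostWithWeightsOne h, oneOfTwo h,
    sixteenPercent h⟩

end Pool.Agent.Results.MP_ffcd14_ag.AllSlopeTypesTimes
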