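import Pool.Agent.V5helper84.SL.Main7

open CategoryTheory AlgebraicGeometry Filter Topology

universe u v

namespace Pool.Agent.Results.MP_ffcd14_ag.SignatureLaw

open Pool.Agent.H914 Pool.Agent.H914.VarClass Pool.Agent.H914.VarClass.Obj
  Pool.Agent.H281R3.HT Pool.Agent.W539.Ker Pool.Agent.W534 Pool.Agent.V5helper84.SL

/-- **A zero-one law for the standard conjecture of Hodge type.** The polarized variety `P = (X, D)`,
`d = dim X`, is *good* if `D ^ d > 0`, hard Lefschetz holds for `D` and the Lefschetz standard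
conjecture holds for `X`; `b` is the sum of the Betti numbers of `X`. The powers of good varieties are
good. The conjecture of Hodge type (modulo numerical equivalence, `HodgeNum`) is not assumed.

(A) Let `G` be a set of good varieties which contains the powers of its members (for instance all good
varieties). Consider, for `X` in `G`, the form of the conjecture on the cycles of codimension `d` on
`X × X` (the correspondences of degree `0`) modulo numerical equivalence; fewer than half of its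
squares are negative. The conjecture of Hodge type holds for all members of `G` if and only if the
proportion of the negative squares is at most `1 / 2 - b ^ (-o(1))`: any such improvement of the
trivial bound `1 / 2`, for instance `49` percent, is equivalent to the full conjecture.

(B) For every good `X`:
(1) The proportion of the negative squares of the form on the cycles of middle codimension modulo
numerical equivalence on `X ^ (2 n + 2)` is always less than `1 / 2`, and either the conjecture holds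
for all powers of `X` and it is always `0`, or it converges to `1 / 2` exponentially fast.
(2) The ratios of the signatures of these forms converge to a number `Λ`; `Λ = b ^ 2` if and only if
the conjecture holds for all powers of `X`. If it fails for `X ^ (m + 1)` then
`Λ ^ (m + 1) ≤ (b ^ (m + 1) - 2 N) ^ 2`, `N ≥ 1` the number of cancelling pairs on `X ^ (m + 1)`, and
(3) the signatures in all codimensions on all powers of `X` are bounded by the corresponding powers of
`b ^ (m + 1) - 2 N`.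
(4) The conjecture holds for all powers of `X` if and only if in some codimension on arbitrarily
large powers of `X`, with almost the maximal rank, at most `1 / 2 - ε` of the squares are negative. -/
theorem result {k : Type u} [Field k] {𝒱 : VarClass k} {ops : CycleOps 𝒱}
    (W : WeilCohomology.{u, v} ops) :
    (∀ P : Polarized 𝒱, Good W P → ∀ n, Good W (ppw ops P n)) ∧
    -- (A) classes of varieties
    (∀ G : Set (Polarized 𝒱), (∀ P ∈ G, Good W P) → (∀ P ∈ G, ∀ n, ppw ops P n ∈ G) →
      ((∀ P ∈ G, HodgeNum W P.X P.D) ↔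
        ∀ δ : ℝ, 0 < δ → ∃ B : ℝ, ∀ P ∈ G, B ≤ (Module.finrank W.K (W.H P.X) : ℝ) →
          (negMid W P 0 : ℝ) ≤ (1 / 2 - (Module.finrank W.K (W.H P.X) : ℝ) ^ (-δ)) *
            (rkMid ops P 0 : ℝ))) ∧
    -- (B) the powers of one variety
    ∀ P : Polarized 𝒱, Good W P → ∀ b : ℕ, b = Module.finrank W.K (W.H P.X) →
    -- (1) the zero-one law
    (∀ n, (negMid W P n : ℝ) < 1 / 2 * (rkMid ops P n : ℝ) ∧
      (negMid W P n = 0 ↔ HodgeNum W (ppw ops P (2 * n + 1)).X (ppw ops P (2 * n + 1)).D)) ∧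
    ((∀ n, HodgeNum W (ppw ops P n).X (ppw ops P n).D) ∨
      ∃ δ : ℝ, 0 < δ ∧ δ < 1 ∧ ∃ M : ℕ, ∀ n ≥ M,
        (1 / 2 - (1 - δ) ^ n) * (rkMid ops P n : ℝ) < (negMid W P n : ℝ)) ∧
    -- (2) the rate of growth of the signatures
    (∃ Λ : ℝ, 0 < Λ ∧
      Tendsto (fun n => (sgMid W P (n + 1) : ℝ) / (sgMid W P n : ℝ)) atTop (𝓝 Λ) ∧
      (∀ n, 0 < sgMid W P n ∧ (sgMid W P (n + 1) : ℝ) ≤ Λ * (sgMid W P n : ℝ)) ∧
      (Λ = (b : ℝ) ^ 2 ↔ ∀ n, HodgeNum W (ppw ops P n).X (ppw ops P n).D) ∧
      (∀ m, Λ ^ (m + 1) ≤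
        ((b ^ (m + 1) - 2 * pairsNo W (ppw ops P m).X (ppw ops P m).D : ℕ) : ℝ) ^ 2) ∧
      ∀ m, 2 * pairsNo W (ppw ops P m).X (ppw ops P m).D ≤ b ^ (m + 1) ∧
        (¬ HodgeNum W (ppw ops P m).X (ppw ops P m).D →
          1 ≤ pairsNo W (ppw ops P m).X (ppw ops P m).D)) ∧
    -- (3) all powers and codimensions
    (∀ m n c, 2 * c ≤ (ppw ops P n).X.dim → |sgUp W (ppw ops P n) c| ≤
      (((b ^ (m + 1) - 2 * pairsNo W (ppw ops P m).X (ppw ops P m).D) ^ ((n + 1) / (m + 1)) *
        b ^ ((n + 1) % (m + 1)) : ℕ) : ℤ)) ∧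
    -- (4) the criterion
    ((∀ n, HodgeNum W (ppw ops P n).X (ppw ops P n).D) ↔
      ∃ ε : ℝ, 0 < ε ∧ ∀ θ : ℝ, 0 ≤ θ → θ < b → ∀ M : ℕ,
        ∃ n ≥ M, ∃ c, 2 * c ≤ (ppw ops P n).X.dim ∧
          θ ^ (n + 1) ≤ (numRank ops (ppw ops P n).X c : ℝ) ∧
          (negUp W (ppw ops P n).X (ppw ops P n).D c : ℝ) ≤
            (1 / 2 - ε) * (numRank ops (ppw ops P n).X c : ℝ)) ∧
    -- the ranks are the numbers of the squares
    ∀ n c, 2 * c ≤ (ppw ops P n).X.dim → numRank ops (ppw ops P n).X c =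
      posUp W (ppw ops P n).X (ppw ops P n).D c +
        negUp W (ppw ops P n).X (ppw ops P n).D c := by
  have hPAIRS := Pool.Agent.V5helper18.SL.PAIRS.t_PAIRS.{u, v}
  refine ⟨fun P hP n => hP.ppw n, fun G hG hpow => square_law hPAIRS G
    (fun P hP => ⟨(hG P hP).cyc, (hG P hP).hard, (hG P hP).lef, (hG P hP).pos⟩) hpow,
    fun P hP b hb => ?_⟩
  subst hb
  obtain ⟨hD, hHL, hB, hpos⟩ := hP
  obtain ⟨f, F⟩ := exists_fm hD hHL hB hpos
  have hsg : ∀ n, 0 < sgMid W P n := sgMid_pos Pool.Agent.V5helper98.SL.t_ISO hD hHL hB F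
  refine ⟨fun n => ⟨?_, negMid_eq_zero_iff hD F n⟩, ?_, ?_, fun m n c hc => gap hPAIRS F m n hc,
    (law2 hPAIRS hD hHL hB hpos).out 0 5, fun n c hc => rank_eq hD hHL hB n hc⟩
  · have h1 := hsg n
    rw [sgMid_eq hD hHL hB n] at h1
    have h2 : (0 : ℝ) < (rkMid ops P n : ℝ) - 2 * (negMid W P n : ℝ) := by exact_mod_cast h1
    linarith
  · rcases zero_one hPAIRS hD hHL hB hpos with h | ⟨δ, h1, h2, M, h3⟩
    · exact Or.inl h
    · exact Or.inr ⟨δ, h1, h2, M, fun n hn => (h3 n hn).1⟩
  · obtain ⟨Λ, h1, h2, h3, h4, h5⟩ := rate hPAIRS hD hHL hB hpos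
    exact ⟨Λ, h1, h2, fun n => ⟨hsg n, h3 n⟩, h5, h4, fun m => ⟨(chain_pairs hPAIRS F m).2,
        fun hn => one_le_pairsNo (F.pow m).fr (F.pow m).one hn⟩⟩

end Pool.Agent.Results.MP_ffcd14_ag.SignatureLaw
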